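import Pool.Agent.H316.TF.Final0
import Pool.Agent.H316.TF.Theta

/-!
# A proper non-abelian variety whose free groups have torsion-free homology (helper316)

For every sufficiently large prime `p` the variety of groups with the law `[x^p, y^p] = 1` (the
groups with an abelian normal subgroup with quotient of exponent `p`) is proper, not abelian, and
all its free groups, of any rank, have torsion-free integral homology in all positive dimensions.
-/

set_option autoImplicit false

namespace Pool.Agent.Results.MP_3ab0ed_al.TorsionFreeHomology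

/-- the group `G` satisfies the laws `w = 1`, `w ∈ L` (the laws are words in countably many
letters): every homomorphism from the free group maps `w` to `1` -/
def Satisfies (L : Set (FreeGroup ℕ)) (G : Type) [Group G] : Prop :=
  ∀ w ∈ L, ∀ f : FreeGroup ℕ →* G, f w = 1

/-- the verbal subgroup of `G`: it is generated by the values in `G` of the words in `L` -/
def verbal (L : Set (FreeGroup ℕ)) (G : Type) [Group G] : Subgroup G :=
  Subgroup.closure {g | ∃ w ∈ L, ∃ f : FreeGroup ℕ →* G, f w = g}

instance verbal_normal (L : Set (FreeGroup ℕ)) (G : Type) [Group G] : (verbal L G).Normal :=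
  Pool.Agent.H316.TF.verb_normal L G

/-- the free group on the set `I` in the variety with the laws `L` -/
abbrev RelativelyFree (L : Set (FreeGroup ℕ)) (I : Type) : Type :=
  FreeGroup I ⧸ verbal L (FreeGroup I)

/-- the set of laws consisting of `[x^p, y^p]` -/
def powerLaw (p : ℕ) : Set (FreeGroup ℕ) :=
  {FreeGroup.of 0 ^ p * FreeGroup.of 1 ^ p * (FreeGroup.of 0 ^ p)⁻¹ * (FreeGroup.of 1 ^ p)⁻¹}

/-- the variety with the laws `L` is proper: some group does not satisfy the laws -/
def IsProper (L : Set (FreeGroup ℕ)) : Prop :=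
  ∃ (G : Type) (_ : Group G), ¬ Satisfies L G

/-- the variety with the laws `L` is abelian -/
def IsAbelian (L : Set (FreeGroup ℕ)) : Prop :=
  ∀ (G : Type) [Group G], Satisfies L G → ∀ a b : G, a * b = b * a

/-- the group `G` has torsion-free integral homology in all dimensions `n ≥ 1` -/
def TorsionFreeHomology (G : Type) [Group G] : Prop :=
  ∀ n : ℕ, 1 ≤ n → ∀ (k : ℤ) (x : groupHomology (Rep.trivial ℤ G ℤ) n), k ≠ 0 → k • x = 0 → x = 0

/-- For every sufficiently large prime `p` the variety of groups with the law `[x^p, y^p] = 1` is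
proper and not abelian, and every free group of this variety has torsion-free integral homology in
all dimensions. -/
theorem result : ∃ p₀ : ℕ, ∀ p : ℕ, p.Prime → p₀ ≤ p →
    IsProper (powerLaw p) ∧ ¬ IsAbelian (powerLaw p) ∧
      ∀ I : Type, TorsionFreeHomology (RelativelyFree (powerLaw p) I) := by
  obtain ⟨p₀, h⟩ := Pool.Agent.H316.TF.final0 Pool.Agent.H316.TF.t_theta
  refine ⟨p₀, fun p hp hpp => ?_⟩
  obtain ⟨h1, ⟨G, iG, h2, a, b, hab⟩, h3⟩ := h p hp hpp
  refine ⟨⟨FreeGroup (Fin 2), inferInstance, h1⟩, fun h4 => hab (h4 G h2 a b), ?_⟩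
  intro I n hn k x hk hkx
  have h5 : k.natAbs • x = 0 := by
    rcases Int.natAbs_eq k with h6 | h6
    · rw [h6, natCast_zsmul] at hkx
      exact hkx
    · rw [h6, neg_zsmul, neg_eq_zero, natCast_zsmul] at hkx
      exact hkx
  exact h3 I n hn k.natAbs x (Int.natAbs_pos.2 hk) h5

end Pool.Agent.Results.MP_3ab0ed_al.TorsionFreeHomology
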